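import Pool.Agent.Helper51.SDL.Goals
import Pool.Agent.Helper85.REC.HCNT

/-!
# Project SDL (MP_fc6b1e_nt), packet PRI: the primes of `L` outside `S'`.
-/

set_option autoImplicit false

namespace Pool.Agent.Helper35.SDL.PRI

open NumberField Module IsDedekindDomain
open Pool.Agent.Helper51.RP Pool.Agent.Helper51.REC Pool.Agent.Helper16.SD
open Pool.Agent.Helper51.SDL
open Pool.Agent.Helper40.RS (bel gw lies bel_smul efg val_smul)
open Pool.Agent.Helper40.RD (bel_of_above ordW)
open scoped Pointwise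

variable {F L : Type} [Field F] [NumberField F] [Field L] [NumberField L] [Algebra F L]

theorem mem_upS (S : Set (HeightOneSpectrum (𝓞 F))) (w : HeightOneSpectrum (𝓞 L)) :
    w ∈ upS L S ↔ bel F w ∈ S := by
  constructor
  · rintro ⟨v, hv, hw⟩
    rw [bel_of_above hw]
    exact hv
  · intro h
    exact ⟨bel F w, h, rfl⟩

omit [NumberField F] [NumberField L] in
theorem gw_mul (g h : L ≃ₐ[F] L) (w : HeightOneSpectrum (𝓞 L)) : gw (g * h) w = gw g (gw h w) :=
  HeightOneSpectrum.ext (mul_smul g h w.asIdeal)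

omit [NumberField F] [NumberField L] in
theorem gw_one (w : HeightOneSpectrum (𝓞 L)) : gw (1 : L ≃ₐ[F] L) w = w :=
  HeightOneSpectrum.ext (one_smul _ w.asIdeal)

variable [IsGalois F L]

theorem bel_gw (g : L ≃ₐ[F] L) (w : HeightOneSpectrum (𝓞 L)) : bel F (gw g w) = bel F w :=
  bel_smul g w (gw g w) rfl

theorem exists_gw (w w' : HeightOneSpectrum (𝓞 L)) (h : bel F w = bel F w') :
    ∃ g : L ≃ₐ[F] L, w' = gw g w := by
  have h2 : w'.asIdeal.LiesOver (bel F w).asIdeal := by rw [h]; infer_instance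
  obtain ⟨g, hg⟩ := Ideal.exists_smul_eq_of_isGaloisGroup (bel F w).asIdeal
    w.asIdeal w'.asIdeal (L ≃ₐ[F] L)
  exact ⟨g, HeightOneSpectrum.ext hg.symm⟩

/-- The permutation of the primes. -/
noncomputable def perm (σ : L ≃ₐ[F] L) (S : Set (HeightOneSpectrum (𝓞 F))) :
    Equiv.Perm (PF (upS L S)) where
  toFun w := ⟨gw σ w.1, fun h => w.2 (by
    rw [mem_upS] at h ⊢
    rwa [bel_gw] at h)⟩
  invFun w := ⟨gw σ⁻¹ w.1, fun h => w.2 (by
    rw [mem_upS] at h ⊢
    rwa [bel_gw] at h)⟩
  left_inv w := Subtype.ext (by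
    show gw σ⁻¹ (gw σ w.1) = w.1
    rw [← gw_mul, inv_mul_cancel, gw_one])
  right_inv w := Subtype.ext (by
    show gw σ (gw σ⁻¹ w.1) = w.1
    rw [← gw_mul, mul_inv_cancel, gw_one])

theorem perm_pow (σ : L ≃ₐ[F] L) (S : Set (HeightOneSpectrum (𝓞 F))) (i : ℕ)
    (w : PF (upS L S)) : ((perm σ S ^ i) w).1 = gw (σ ^ i) w.1 := by
  induction i with
  | zero => rw [pow_zero, pow_zero, gw_one, Equiv.Perm.one_apply]
  | succ i ih =>
    rw [pow_succ', pow_succ', Equiv.Perm.mul_apply, gw_mul, ← ih]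
    rfl

theorem card_filter_one {n : ℕ} (hn : 0 < n) (q : ℕ → Prop) (_ : DecidablePred q)
    (h : ∀ i, i < n → q i → i = 0) (h0 : q 0) : ((Finset.range n).filter q).card = 1 := by
  rw [Finset.card_eq_one]
  refine ⟨0, ?_⟩
  ext i
  rw [Finset.mem_filter, Finset.mem_singleton, Finset.mem_range]
  constructor
  · rintro ⟨hi, h1⟩
    exact h i hi h1
  · rintro rfl
    exact ⟨hn, h0⟩

theorem t : Pool.Agent.Helper51.SDL.S_PRI := by
  classical
  intro F L _ _ _ _ _ _ n σ hn hσ S hS
  have hcard : Nat.card (L ≃ₐ[F] L) = n := by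
    rw [IsGalois.card_aut_eq_finrank, hn]
  have hpos : 0 < n := by
    rw [← hn]
    exact finrank_pos
  have hσn : σ ^ n = 1 := by
    rw [← hcard]
    exact pow_card_eq_one'
  have hσm : ∀ i : ℕ, σ ^ i = σ ^ (i % n) := fun i => by
    rw [← hcard, pow_mod_natCard]
  let b : PF (upS L S) → PF S := fun w => ⟨bel F w.1, fun h => w.2 ((mem_upS S w.1).2 h)⟩
  refine ⟨perm σ S, b, ⟨hpos, fun w => ?_, fun w w' => ?_, fun W => ?_⟩, fun w => rfl,
    fun w x => ?_, fun w hw => ?_⟩
  · apply Subtype.ext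
    rw [perm_pow, hσn, gw_one]
  · constructor
    · intro h
      have h' : bel F w.1 = bel F w'.1 := congrArg Subtype.val h
      obtain ⟨g, hg⟩ := exists_gw w.1 w'.1 h'
      obtain ⟨i, rfl⟩ := hσ g
      refine ⟨i, Subtype.ext ?_⟩
      rw [perm_pow]
      exact hg
    · rintro ⟨i, rfl⟩
      apply Subtype.ext
      show bel F w.1 = bel F ((perm σ S ^ i) w).1
      rw [perm_pow, bel_gw]
  · obtain ⟨w, hw⟩ := Pool.Agent.Helper85.REC.exists_above F L W.1
    have h1 : bel F w = W.1 := bel_of_above hw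
    refine ⟨⟨w, fun h => W.2 ?_⟩, Subtype.ext h1⟩
    rw [mem_upS, h1] at h
    exact h
  · unfold ordv
    rw [show (perm σ S w).1 = gw σ w.1 from rfl, val_smul σ w.1 (gw σ w.1) rfl x]
  · have hWS : bel F w.1 ∉ S := fun h => w.2 ((mem_upS S w.1).2 h)
    -- the residue degree
    have hf : w.1.asIdeal.inertiaDeg (𝓞 F) = 1 := by
      have h1 := Ideal.absNorm_pow_inertiaDeg (bel F w.1).asIdeal w.1.asIdeal
      have h2 : Ideal.absNorm (bel F w.1).asIdeal ^ w.1.asIdeal.inertiaDeg (𝓞 F) =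
          Ideal.absNorm (bel F w.1).asIdeal ^ 1 := by
        rw [pow_one]
        exact h1.trans hw
      refine Nat.pow_right_injective ?_ h2
      have h3 : Ideal.absNorm (bel F w.1).asIdeal ≠ 1 := by
        rw [Ne, Ideal.absNorm_eq_one_iff]
        exact (bel F w.1).isPrime.ne_top
      have h4 : Ideal.absNorm (bel F w.1).asIdeal ≠ 0 := by
        rw [Ne, Ideal.absNorm_eq_zero_iff]
        exact (bel F w.1).ne_bot
      omega
    have he : w.1.asIdeal.ramificationIdx (𝓞 F) = 1 := by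
      obtain ⟨x, hx⟩ := (bel F w.1).valuation_exists_uniformizer F
      have h1 : ordv (bel F w.1) x = 1 := by
        unfold ordv
        rw [hx, WithZero.log_exp]
        norm_num
      have h2 := hS (bel F w.1) hWS w.1 rfl x
      rw [ordW, Ideal.ramificationIdx'_eq_ramificationIdx _ _ (bel F w.1).ne_bot, h1, mul_one] at h2
      exact_mod_cast h2
    have hg : ((bel F w.1).asIdeal.primesOver (𝓞 L)).ncard = n := by
      have h1 := efg (K := F) w.1
      rw [he, hf, mul_one, mul_one, hn] at h1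
      exact h1
    have hsub : (bel F w.1).asIdeal.primesOver (𝓞 L) ⊆
        ((Finset.range n).image fun i => (gw (σ ^ i) w.1).asIdeal : Finset (Ideal (𝓞 L))) := by
      intro P hP
      have hP1 : P.IsPrime := hP.1
      have hP2 : P.LiesOver (bel F w.1).asIdeal := hP.2
      have hP3 : P ≠ ⊥ := by
        rintro rfl
        apply (bel F w.1).ne_bot
        rw [hP2.over]
        exact Ideal.under_bot _ _
      obtain ⟨g, hg⟩ := exists_gw w.1 ⟨P, hP1, hP3⟩ (HeightOneSpectrum.ext hP2.over)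
      obtain ⟨i, rfl⟩ := hσ g
      rw [Finset.coe_image, Set.mem_image]
      refine ⟨i % n, ?_, ?_⟩
      · rw [Finset.coe_range, Set.mem_Iio]
        exact Nat.mod_lt _ hpos
      · rw [← hσm, ← hg]
    have hle := Set.ncard_le_ncard hsub (Finset.finite_toSet _)
    rw [hg, Set.ncard_coe_finset] at hle
    have hinj : Set.InjOn (fun i => (gw (σ ^ i) w.1).asIdeal) (Finset.range n : Finset ℕ) := by
      rw [← Finset.card_image_iff]
      refine le_antisymm Finset.card_image_le ?_
      rw [Finset.card_range]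
      exact hle
    unfold fx
    refine card_filter_one hpos _ _ (fun i hi h => ?_) (by rw [pow_zero, Equiv.Perm.one_apply])
    have h1 : gw (σ ^ i) w.1 = gw (σ ^ 0) w.1 := by
      rw [← perm_pow, h, pow_zero, gw_one]
    exact hinj (by simpa using hi) (by simpa using hpos)
      (congrArg HeightOneSpectrum.asIdeal h1)

end Pool.Agent.Helper35.SDL.PRI
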